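import Pool.Agent.N166.TT.Core

/-!
# The Tate conjecture for products: the equivalences
-/

set_option autoImplicit false
set_option linter.unusedSectionVars false

open CategoryTheory AlgebraicGeometry Polynomial

universe u v w

namespace Pool.Agent.N166.TT

open Pool.Agent.H914 Pool.Agent.H914.VarClass Pool.Agent.H914.VarClass.Obj Pool.Agent.W492.BB
  Pool.Agent.W550.Corr Pool.Agent.TH133 Pool.Agent.N166.MU Pool.Agent.N166.DF Module

section abs

variable {F V : Type*} [Field F] [AddCommGroup V] [Module F V]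

lemma rank_iff (n : ℕ) : (∃ v : Fin n → V, ∀ y, ∃! c : Fin n → F, y = ∑ j, c j • v j) ↔
    Module.Finite F V ∧ finrank F V = n := by
  constructor
  · rintro ⟨v, hv⟩
    let f : (Fin n → F) →ₗ[F] V := Fintype.linearCombination F v
    have hf : ∀ c, f c = ∑ j, c j • v j := fun c => Fintype.linearCombination_apply F v c
    have hb : Function.Bijective f := by
      constructor
      · intro c c' h
        obtain ⟨c0, -, h2⟩ := hv (f c)
        rw [h2 c (hf c), h2 c' (h.trans (hf c'))]
      · intro y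
        obtain ⟨c0, h1, -⟩ := hv y
        exact ⟨c0, (hf c0).trans h1.symm⟩
    let e := LinearEquiv.ofBijective f hb
    refine ⟨Module.Finite.equiv e, ?_⟩
    rw [← e.finrank_eq, finrank_fin_fun]
  · rintro ⟨h1, h2⟩
    let b := finBasisOfFinrankEq F V h2
    refine ⟨b, fun y => ⟨b.repr y, (b.sum_repr y).symm, fun c hc => ?_⟩⟩
    rw [hc]
    funext j
    rw [b.repr_sum_self]

end abs

variable {k : Type u} [Field k] {𝒱 : VarClass k} {C : TheoryData.{u, v, 0} 𝒱 ℚ}
  [hC : IsChowProj C] {K : Type w} [Field K] [CharZero K] {H : WeilTheoryData.{u, v, w} C K}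
  [hH : IsWeilProj H] {G : Type} {ρ : Operations H G} {A Z : 𝒱.Obj} {J : Type} [Fintype J]
  {deg : J → ℕ} {D E : J → C.A A}

/-- The homologically trivial cycles. -/
def triv (H : WeilTheoryData.{u, v, w} C K) (X : 𝒱.Obj) : Submodule ℚ (C.A X) where
  carrier := {x | H.cl x = 0}
  zero_mem' := map_zero _
  add_mem' := by
    intro a b ha hb
    change H.cl (a + b) = 0
    rw [map_add, show H.cl a = 0 from ha, show H.cl b = 0 from hb, add_zero]
  smul_mem' := by
    intro c a ha
    change H.cl (c • a) = 0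
    rw [Algebra.smul_def, map_mul, show H.cl a = 0 from ha, mul_zero]

/-- The cycles modulo homological equivalence. -/
abbrev Cyc (H : WeilTheoryData.{u, v, w} C K) (X : 𝒱.Obj) (i : ℤ) : Type _ :=
  (C.gr X i) ⧸ (triv H X).comap (C.gr X i).subtype

lemma mk_eq_iff (X : 𝒱.Obj) (i : ℤ) (x y : C.gr X i) :
    ((triv H X).comap (C.gr X i).subtype).mkQ x = ((triv H X).comap (C.gr X i).subtype).mkQ y ↔
      H.cl (x : C.A X) = H.cl (y : C.A X) := by
  rw [Submodule.mkQ_apply, Submodule.mkQ_apply, Submodule.Quotient.eq]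
  change H.cl ((x - y : C.gr X i) : C.A X) = 0 ↔ _
  rw [Submodule.coe_sub, map_sub, sub_eq_zero]

lemma rankCycles_iff (X : 𝒱.Obj) (i n : ℕ) : RankCycles H X i n ↔
    Module.Finite ℚ (Cyc H X i) ∧ finrank ℚ (Cyc H X i) = n := by
  rw [← rank_iff]
  let N := (triv H X).comap (C.gr X i).subtype
  have key : ∀ (x : Fin n → C.gr X i) (y : C.gr X i) (c : Fin n → ℚ),
      N.mkQ y = ∑ j, c j • N.mkQ (x j) ↔
        H.cl (y : C.A X) = H.cl (∑ j, c j • (x j : C.A X)) := by
    intro x y c
    have h1 : ∑ j, c j • N.mkQ (x j) = N.mkQ (∑ j, c j • x j) := by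
      rw [map_sum]
      exact Finset.sum_congr rfl fun j _ => (map_smul _ _ _).symm
    rw [h1]
    have h2 : N.mkQ y = N.mkQ (∑ j, c j • x j) ↔ H.cl (y : C.A X) =
        H.cl ((∑ j, c j • x j : C.gr X i) : C.A X) := mk_eq_iff X i _ _
    rw [h2]
    have h3 : ((∑ j, c j • x j : C.gr X i) : C.A X) = ∑ j, c j • (x j : C.A X) := by
      rw [AddSubmonoidClass.coe_finsetSum]
      rfl
    rw [h3]
  constructor
  · rintro ⟨x, hx, h⟩
    refine ⟨fun j => N.mkQ ⟨x j, hx j⟩, fun y => ?_⟩
    obtain ⟨y, rfl⟩ := N.mkQ_surjective y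
    obtain ⟨c, h1, h2⟩ := h y y.2
    refine ⟨c, (key (fun j => ⟨x j, hx j⟩) y c).2 h1, fun c' h' => h2 c' ?_⟩
    exact (key (fun j => ⟨x j, hx j⟩) y c').1 h'
  · rintro ⟨v, hv⟩
    choose x hx using fun j => N.mkQ_surjective (v j)
    refine ⟨fun j => x j, fun j => (x j).2, fun y hy => ?_⟩
    obtain ⟨c, h1, h2⟩ := hv (N.mkQ ⟨y, hy⟩)
    have h3 : v = fun j => N.mkQ (x j) := funext fun j => (hx j).symm
    rw [h3] at h1 h2
    refine ⟨c, (key x ⟨y, hy⟩ c).1 h1, fun c' h' => h2 c' ?_⟩
    exact (key x ⟨y, hy⟩ c').2 h'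

lemma rankTate_iff (hρ : IsGaloisAction ρ) (X : 𝒱.Obj) (i n : ℕ) : RankTate ρ X i n ↔
    Module.Finite K (tate hρ X i) ∧ finrank K (tate hρ X i) = n := by
  rw [← rank_iff]
  have key : ∀ (x : Fin n → tate hρ X i) (y : tate hρ X i) (c : Fin n → K),
      y = ∑ j, c j • x j ↔ (y : H.A X) = ∑ j, c j • (x j : H.A X) := by
    intro x y c
    rw [← Subtype.coe_inj, AddSubmonoidClass.coe_finsetSum]
    rfl
  constructor
  · rintro ⟨x, hx, h⟩
    refine ⟨fun j => ⟨x j, hx j⟩, fun y => ?_⟩
    obtain ⟨c, h1, h2⟩ := h y y.2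
    refine ⟨c, (key (fun j => ⟨x j, hx j⟩) y c).2 h1, fun c' h' => h2 c' ?_⟩
    exact (key (fun j => ⟨x j, hx j⟩) y c').1 h'
  · rintro ⟨v, hv⟩
    refine ⟨fun j => v j, fun j => (v j).2, fun y hy => ?_⟩
    obtain ⟨c, h1, h2⟩ := hv ⟨y, hy⟩
    refine ⟨c, (key v ⟨y, hy⟩ c).1 h1, fun c' h' => h2 c' ?_⟩
    exact (key v ⟨y, hy⟩ c').2 h'

lemma rankEquality_iff (hρ : IsGaloisAction ρ) (X : 𝒱.Obj) (i : ℕ) : RankEquality ρ X i ↔
    Module.Finite ℚ (Cyc H X i) ∧ Module.Finite K (tate hρ X i) ∧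
      finrank ℚ (Cyc H X i) = finrank K (tate hρ X i) := by
  constructor
  · rintro ⟨n, h1, h2⟩
    rw [rankCycles_iff] at h1
    rw [rankTate_iff hρ] at h2
    exact ⟨h1.1, h2.1, h1.2.trans h2.2.symm⟩
  · rintro ⟨h1, h2, h3⟩
    exact ⟨_, (rankCycles_iff X i _).2 ⟨h1, rfl⟩, (rankTate_iff hρ X i _).2 ⟨h2, h3.symm⟩⟩

/-- The coefficients, modulo homological equivalence. -/
noncomputable def coefQ {l : ℤ} (i m : ℤ) (a : C.A A) (ha : C.Deg l a)
    (h : l + i - A.dim = m) : Cyc H (A.prod Z) i →ₗ[ℚ] Cyc H Z m :=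
  Submodule.mapQ _ _ (LinearMap.restrict
    ((C.push (snd A Z)) ∘ₗ LinearMap.mulLeft ℚ (C.pull (fst A Z) a)) (p := C.gr (A.prod Z) i)
    (q := C.gr Z m) fun _ hx => coef_mem ha hx h) (by
      rintro ⟨x, hx⟩ h0
      have h1 : H.cl x = 0 := h0
      change H.cl (coef a x) = 0
      rw [cl_coef', h1, coefH_zero])

variable (hρ : IsGaloisAction ρ) (hG : GenHom H A Z deg D E)
  (hT : ∀ (i : ℤ) (w : H.A (A.prod Z)), IsTate ρ (A.prod Z) i w → ∃ h : J → H.A Z,
    w = ∑ j, H.ext (H.cl (D j)) (h j))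

include hρ hG

lemma coefH_gen (z : J → H.A Z) (j : J) :
    coefH H (E j) (∑ i, H.ext (H.cl (D i)) (z i)) = z j := by
  classical
  rw [coefH_sum, Finset.sum_eq_single j]
  · rw [coefH_ext (hG.eq j), Rat.cast_one, one_smul]
  · intro i _ hij
    rw [coefH_ext (hG.ne i j hij), Rat.cast_zero, zero_smul]
  · intro h
    exact absurd (Finset.mem_univ j) h

lemma isTate_coef {i : ℤ} {w : H.A (A.prod Z)} (hw : IsTate ρ (A.prod Z) i w) (j : J) :
    IsTate ρ Z (i - deg j) (coefH H (E j) w) := isTate_coefH hρ (hG.right j) hw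

include hT in
/-- The expansion of a Tate class. -/
lemma expandT {i : ℤ} {w : H.A (A.prod Z)} (hw : IsTate ρ (A.prod Z) i w) :
    w = ∑ j, H.ext (H.cl (D j)) (coefH H (E j) w) := by
  obtain ⟨h, rfl⟩ := hT i w hw
  refine Finset.sum_congr rfl fun j _ => ?_
  rw [coefH_gen hρ hG]

omit hG in
lemma isTate_sum {ι : Type} (s : Finset ι) {X : 𝒱.Obj} {i : ℤ} {x : ι → H.A X}
    (hx : ∀ j ∈ s, IsTate ρ X i (x j)) : IsTate ρ X i (∑ j ∈ s, x j) :=
  (tate hρ X i).sum_mem hx

lemma isTate_ext_sum {i : ℤ} {h : J → H.A Z} (hh : ∀ j, IsTate ρ Z (i - deg j) (h j)) :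
    IsTate ρ (A.prod Z) i (∑ j, H.ext (H.cl (D j)) (h j)) := by
  apply isTate_sum hρ
  intro j _
  have h1 := isTate_ext (A := A) hρ (hG.left j) (hh j)
  rwa [add_sub_cancel] at h1

omit hG in
lemma tate_neg {X : 𝒱.Obj} {i : ℤ} (hi : i < 0) {x : H.A X} (hx : IsTate ρ X i x) : x = 0 := by
  have h1 : x ∈ H.gr X (2 * i) := hx.1
  rw [H.gr_neg X _ (by omega)] at h1
  exact (Submodule.mem_bot _).1 h1

include hT in
/-- The Tate conjecture for the product, up to linear combinations. -/
theorem isSpanned_iff (i : ℕ) : IsSpanned ρ (A.prod Z) i ↔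
    ∀ m : ℕ, m ≤ i → i ≤ m + A.dim → IsSpanned ρ Z m := by
  constructor
  · intro hN m hmi him h hh
    obtain ⟨j, hj⟩ := exists_deg H hG (c := i - m) (by omega)
    have h1 := isTate_ext (A := A) hρ (hG.left j) hh
    have h2 : (deg j : ℤ) + m = i := by omega
    rw [h2] at h1
    have h3 := hN _ h1
    have h4 : coefH H (E j) (H.ext (H.cl (D j)) h) = h := by
      rw [coefH_ext (hG.eq j), Rat.cast_one, one_smul]
    rw [← h4]
    generalize H.ext (H.cl (D j)) h = w at h3
    unfold Pool.Agent.W484.CK.InSpan at h3 ⊢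
    induction h3 using Submodule.span_induction with
    | mem w hw =>
      obtain ⟨x, hx, rfl⟩ := hw
      apply Submodule.subset_span
      refine ⟨coef (E j) x, ?_, (cl_coef' (E j) x).symm⟩
      exact coef_mem (hG.right j) hx (by omega)
    | zero =>
      rw [coefH_zero]
      exact Submodule.zero_mem _
    | add a b _ _ ha hb =>
      rw [coefH_add]
      exact Submodule.add_mem _ ha hb
    | smul c a _ ha =>
      rw [coefH_smul]
      exact Submodule.smul_mem _ _ ha
  · intro hN w hw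
    rw [expandT hρ hG hT hw]
    apply Submodule.sum_mem
    intro j _
    have h1 := isTate_coef hρ hG hw j
    by_cases hj : deg j ≤ i
    · by_cases hj' : deg j ≤ A.dim
      · have h2 : IsTate ρ Z ((i - deg j : ℕ) : ℤ) (coefH H (E j) w) := by
          rw [Nat.cast_sub hj]
          exact h1
        have h3 := hN (i - deg j) (by omega) (by omega) _ h2
        generalize coefH H (E j) w = y at h3
        unfold Pool.Agent.W484.CK.InSpan at h3
        induction h3 using Submodule.span_induction with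
        | mem w hw =>
          obtain ⟨x, hx, rfl⟩ := hw
          apply Submodule.subset_span
          refine ⟨C.ext (D j) x, ?_, (cl_ext _ _).symm⟩
          have h4 := ext_mem' (C := C) (hG.left j) hx
          have h5 : (deg j : ℤ) + ((i - deg j : ℕ) : ℤ) = i := by omega
          rwa [h5] at h4
        | zero =>
          rw [TheoryData.ext_zero_right]
          exact Submodule.zero_mem _
        | add a b _ _ ha hb =>
          have h4 : H.ext (H.cl (D j)) (a + b) = H.ext (H.cl (D j)) a + H.ext (H.cl (D j)) b := by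
            simp only [TheoryData.ext, map_add, mul_add]
          rw [h4]
          exact Submodule.add_mem _ ha hb
        | smul c a _ ha =>
          have h4 : H.ext (H.cl (D j)) (c • a) = c • H.ext (H.cl (D j)) a := by
            simp only [TheoryData.ext, map_smul, mul_smul_comm]
          rw [h4]
          exact Submodule.smul_mem _ _ ha
      · have h4 : E j = 0 := by
          have h6 : E j ∈ C.gr A ((A.dim : ℤ) - deg j) := hG.right j
          rw [C.gr_neg A _ (by omega)] at h6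
          exact (Submodule.mem_bot _).1 h6
        have h5 : coefH H (E j) w = 0 := by
          rw [coefH, h4, map_zero, map_zero, zero_mul, map_zero]
        rw [h5, TheoryData.ext_zero_right]
        exact Submodule.zero_mem _
    · rw [tate_neg hρ (by omega) h1, TheoryData.ext_zero_right]
      exact Submodule.zero_mem _

/-- The Chow groups of the product modulo homological equivalence. -/
theorem cyc_equiv (i : ℤ) :
    Nonempty (Cyc H (A.prod Z) i ≃ₗ[ℚ] (∀ j : J, Cyc H Z (i - deg j))) := by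
  let Φ : Cyc H (A.prod Z) i →ₗ[ℚ] (∀ j : J, Cyc H Z (i - deg j)) :=
    LinearMap.pi fun j => coefQ i (i - deg j) (E j) (hG.right j) (by ring)
  have hΦ : ∀ (x : C.gr (A.prod Z) i) (j : J),
      Φ (((triv H (A.prod Z)).comap (C.gr (A.prod Z) i).subtype).mkQ x) j =
        ((triv H Z).comap (C.gr Z (i - deg j)).subtype).mkQ
          ⟨coef (E j) (x : C.A (A.prod Z)), coef_mem (hG.right j) x.2 (by ring)⟩ :=
    fun x j => rfl
  refine ⟨LinearEquiv.ofBijective Φ ⟨?_, ?_⟩⟩
  · rw [injective_iff_map_eq_zero]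
    intro y hy
    obtain ⟨x, rfl⟩ := Submodule.mkQ_surjective _ y
    have h1 : ∀ j, H.cl (coef (E j) (x : C.A (A.prod Z))) = 0 := by
      intro j
      have h2 := congrFun hy j
      rw [hΦ] at h2
      have h3 := (mk_eq_iff (H := H) Z (i - deg j) _ 0).1 (h2.trans (map_zero _).symm)
      rw [h3]
      exact map_zero _
    have h2 := expand H hG x.2
    rw [map_sum] at h2
    have h3 : H.cl (x : C.A (A.prod Z)) = 0 := by
      rw [h2]
      apply Finset.sum_eq_zero
      intro j _
      rw [cl_ext, h1, TheoryData.ext_zero_right]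
    rw [← map_zero (((triv H (A.prod Z)).comap (C.gr (A.prod Z) i).subtype).mkQ)]
    apply (mk_eq_iff _ _ _ _).2
    rw [h3]
    exact (map_zero _).symm
  · intro y
    choose z hz using fun j => Submodule.mkQ_surjective _ (y j)
    have hx : ∑ j, C.ext (D j) (z j : C.A Z) ∈ C.gr (A.prod Z) i := by
      apply Submodule.sum_mem
      intro j _
      have := ext_mem' (C := C) (hG.left j) (z j).2
      rwa [add_sub_cancel] at this
    refine ⟨((triv H (A.prod Z)).comap (C.gr (A.prod Z) i).subtype).mkQ ⟨_, hx⟩, ?_⟩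
    funext j
    rw [hΦ, ← hz j]
    apply (mk_eq_iff _ _ _ _).2
    exact congrArg H.cl (DF.coef_gen H hG _ j)

include hT in
/-- The Tate classes of the product. -/
theorem tate_equiv (i : ℤ) :
    Nonempty (tate hρ (A.prod Z) i ≃ₗ[K] (∀ j : J, tate hρ Z (i - deg j))) := by
  let Φ : tate hρ (A.prod Z) i →ₗ[K] (∀ j : J, tate hρ Z (i - deg j)) :=
    LinearMap.pi fun j => LinearMap.restrict
      ((H.push (snd A Z)) ∘ₗ LinearMap.mulLeft K (H.pull (fst A Z) (H.cl (E j))))
      (p := tate hρ (A.prod Z) i) (q := tate hρ Z (i - deg j)) fun _ hx =>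
        isTate_coef hρ hG hx j
  have hΦ : ∀ (x : tate hρ (A.prod Z) i) (j : J), (Φ x j : H.A Z) =
      coefH H (E j) (x : H.A (A.prod Z)) := fun x j => rfl
  refine ⟨LinearEquiv.ofBijective Φ ⟨?_, ?_⟩⟩
  · rw [injective_iff_map_eq_zero]
    intro x hx
    apply Subtype.ext
    have h1 : ∀ j, coefH H (E j) (x : H.A (A.prod Z)) = 0 := by
      intro j
      rw [← hΦ, hx]
      rfl
    rw [expandT hρ hG hT x.2]
    simp only [h1]
    rw [Submodule.coe_zero]
    apply Finset.sum_eq_zero
    intro j _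
    exact TheoryData.ext_zero_right _ _
  · intro y
    refine ⟨⟨∑ j, H.ext (H.cl (D j)) (y j : H.A Z), isTate_ext_sum hρ hG fun j => (y j).2⟩, ?_⟩
    funext j
    apply Subtype.ext
    rw [hΦ]
    exact coefH_gen hρ hG _ j

omit hG in
lemma finrank_neg_tate {i : ℤ} (hi : i < 0) (X : 𝒱.Obj) :
    Module.Finite K (tate hρ X i) ∧ finrank K (tate hρ X i) = 0 := by
  have h1 : tate hρ X i = ⊥ := (Submodule.eq_bot_iff _).2 fun x hx => tate_neg hρ hi hx
  rw [h1]
  exact ⟨inferInstance, finrank_bot K _⟩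

omit hρ hG in
lemma finrank_neg_cyc {i : ℤ} (hi : i < 0) (X : 𝒱.Obj) :
    Module.Finite ℚ (Cyc H X i) ∧ finrank ℚ (Cyc H X i) = 0 := by
  have h1 : ∀ x : Cyc H X i, x = 0 := by
    intro x
    obtain ⟨⟨y, hy⟩, rfl⟩ := Submodule.mkQ_surjective _ x
    have hy' := hy
    rw [C.gr_neg X i hi] at hy'
    rw [← map_zero (((triv H X).comap (C.gr X i).subtype).mkQ)]
    apply (mk_eq_iff _ _ _ _).2
    change H.cl y = H.cl 0
    rw [(Submodule.mem_bot _).1 hy']
  have : Subsingleton (Cyc H X i) := ⟨fun a b => by rw [h1 a, h1 b]⟩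
  exact ⟨inferInstance, finrank_zero_of_subsingleton⟩

include hT in
/-- **The rank equality for the product.** -/
theorem rankEquality_all_iff :
    (∀ i, RankEquality ρ (A.prod Z) i) ↔ ∀ i, RankEquality ρ Z i := by
  constructor
  · intro hN m
    induction m using Nat.strong_induction_on with
    | _ m ih =>
      have h0 := (rankEquality_iff hρ _ _).1 (hN m)
      obtain ⟨e1⟩ := cyc_equiv (A := A) (Z := Z) hρ hG (m : ℤ)
      obtain ⟨e2⟩ := tate_equiv hρ hG hT (m : ℤ)
      obtain ⟨hf1, hf2, hr⟩ := h0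
      have f1 : Module.Finite ℚ (∀ j : J, Cyc H Z ((m : ℤ) - deg j)) := Module.Finite.equiv e1
      have f2 : Module.Finite K (∀ j : J, tate hρ Z ((m : ℤ) - deg j)) := Module.Finite.equiv e2
      have g1 : ∀ j, Module.Finite ℚ (Cyc H Z ((m : ℤ) - deg j)) := fun j =>
        Module.Finite.of_surjective
          (LinearMap.proj (R := ℚ) (φ := fun j => Cyc H Z ((m : ℤ) - deg j)) j)
          (LinearMap.proj_surjective j)
      have g2 : ∀ j, Module.Finite K (tate hρ Z ((m : ℤ) - deg j)) := fun j =>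
        Module.Finite.of_surjective
          (LinearMap.proj (R := K) (φ := fun j => tate hρ Z ((m : ℤ) - deg j)) j)
          (LinearMap.proj_surjective j)
      have fr : ∀ j, Module.Free ℚ (Cyc H Z ((m : ℤ) - deg j)) := fun j =>
        Module.Free.of_divisionRing ℚ _
      rw [e1.finrank_eq, e2.finrank_eq, finrank_pi_fintype, finrank_pi_fintype] at hr
      obtain ⟨j0, hj0⟩ := exists_deg H hG (c := 0) (Nat.zero_le _)
      have hz : (m : ℤ) - deg j0 = m := by rw [hj0, Nat.cast_zero, sub_zero]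
      have g1' := g1 j0
      have g2' := g2 j0
      rw [hz] at g1' g2'
      refine (rankEquality_iff hρ _ _).2 ⟨g1', g2', ?_⟩
      by_contra hne
      have h2 : ∀ j, deg j ≠ 0 → finrank ℚ (Cyc H Z ((m : ℤ) - deg j)) =
          finrank K (tate hρ Z ((m : ℤ) - deg j)) := by
        intro j hj
        by_cases hjm : deg j ≤ m
        · have h3 := ((rankEquality_iff hρ _ _).1 (ih (m - deg j) (by omega))).2.2
          rw [Nat.cast_sub hjm] at h3
          exact h3
        · rw [(finrank_neg_cyc (by omega) Z).2, (finrank_neg_tate hρ (by omega) Z).2]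
      have h3 : ∀ j, deg j = 0 → (finrank ℚ (Cyc H Z ((m : ℤ) - deg j)) =
          finrank ℚ (Cyc H Z (m : ℤ)) ∧ finrank K (tate hρ Z ((m : ℤ) - deg j)) =
          finrank K (tate hρ Z (m : ℤ))) := by
        intro j hj
        rw [hj, Nat.cast_zero, sub_zero]
        exact ⟨rfl, rfl⟩
      rcases lt_or_gt_of_ne hne with hlt | hgt
      · apply absurd hr
        apply ne_of_lt
        refine Finset.sum_lt_sum (fun j _ => ?_) ⟨j0, Finset.mem_univ _, ?_⟩
        · by_cases hj : deg j = 0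
          · rw [(h3 j hj).1, (h3 j hj).2]
            exact hlt.le
          · exact (h2 j hj).le
        · rw [(h3 j0 hj0).1, (h3 j0 hj0).2]
          exact hlt
      · apply absurd hr
        apply ne_of_gt
        refine Finset.sum_lt_sum (fun j _ => ?_) ⟨j0, Finset.mem_univ _, ?_⟩
        · by_cases hj : deg j = 0
          · rw [(h3 j hj).1, (h3 j hj).2]
            exact hgt.le
          · exact (h2 j hj).ge
        · rw [(h3 j0 hj0).1, (h3 j0 hj0).2]
          exact hgt
  · intro hN i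
    rw [rankEquality_iff hρ]
    obtain ⟨e1⟩ := cyc_equiv (A := A) (Z := Z) hρ hG (i : ℤ)
    obtain ⟨e2⟩ := tate_equiv hρ hG hT (i : ℤ)
    have key : ∀ j, Module.Finite ℚ (Cyc H Z ((i : ℤ) - deg j)) ∧
        Module.Finite K (tate hρ Z ((i : ℤ) - deg j)) ∧
        finrank ℚ (Cyc H Z ((i : ℤ) - deg j)) = finrank K (tate hρ Z ((i : ℤ) - deg j)) := by
      intro j
      by_cases hj : deg j ≤ i
      · have h1 := (rankEquality_iff hρ _ _).1 (hN (i - deg j))
        rwa [Nat.cast_sub hj] at h1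
      · have h1 := finrank_neg_cyc (H := H) (i := (i : ℤ) - deg j) (by omega) Z
        have h2 := finrank_neg_tate hρ (i := (i : ℤ) - deg j) (by omega) Z
        exact ⟨h1.1, h2.1, h1.2.trans h2.2.symm⟩
    have g1 := fun j => (key j).1
    have g2 := fun j => (key j).2.1
    refine ⟨Module.Finite.equiv e1.symm, Module.Finite.equiv e2.symm, ?_⟩
    have fr : ∀ j, Module.Free ℚ (Cyc H Z ((i : ℤ) - deg j)) := fun j =>
      Module.Free.of_divisionRing ℚ _
    rw [e1.finrank_eq, e2.finrank_eq, finrank_pi_fintype, finrank_pi_fintype]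
    exact Finset.sum_congr rfl fun j _ => (key j).2.2

end Pool.Agent.N166.TT
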