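import Pool.Agent.N166.TT.Rank
import Pool.Agent.N166.DF.Main

/-!
# The Tate conjecture for products with constant abelian varieties
-/

set_option autoImplicit false
set_option linter.unusedSectionVars false

open CategoryTheory AlgebraicGeometry Polynomial

universe u v w

namespace Pool.Agent.N166.TT

open Module Pool.Agent.H914 Pool.Agent.H914.VarClass Pool.Agent.H914.VarClass.Obj
  Pool.Agent.W492.BB Pool.Agent.W550.Corr Pool.Agent.TH133 Pool.Agent.W484.CK Pool.Agent.W484.TB
  Pool.Agent.W484.HS Pool.Agent.W521.Frob Pool.Agent.W521.Count Pool.Agent.W521.Bad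
  Pool.Agent.W521.Descent Pool.Agent.W521.Density Pool.Agent.N166.MU Pool.Agent.N166.DF

section

variable {I : Type} [Finite I] (g : I → ℕ) (E : IntermediateField ℚ ℂ) [FiniteDimensional ℚ E]
  {q : ℕ} (hq : 1 < q) (r : ℕ) (hr : ∀ i, r < g i)
  (x : (Σ i, Fin (g i)) → ℤ) (hx : GoodU (splitPrimes E) g q x)

section gen

variable {k : Type u} [Field k] {𝒱 : VarClass k} {C : TheoryData.{u, v, 0} 𝒱 ℚ} {K : Type w}
  [Field K] [CharZero K] {H : WeilTheoryData.{u, v, w} C K} [hC : IsChow C] [hH : IsWeil H]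
  {A Z : 𝒱.Obj}

include hq hr hx in
/-- **The Kunneth formula for generalized eigenvectors of Frobenius.** -/
theorem kunneth_gen [IsAlgClosed K] (hS : Pool.Agent.W484.CH.IsStandard H) {s : ℕ} (hs : 0 < s)
    {πA : A ⟶ A} {πZ : Z ⟶ Z}
    (hA : Pool.Agent.W484.CH.IsAbelian H πA q s (fun i => weil q (polys g x i)))
    (hZ : Pool.Agent.W484.CH.EigenRankLE E r (Pool.Agent.W484.CH.frob H πZ)) :
    ∃ (J : Type) (_ : Fintype J) (deg : J → ℕ) (D E : J → C.A A),
      Pool.Agent.W484.CH.IsDual A Z deg D E ∧ (∀ j, D j ∈ Pool.Agent.W484.CH.DivProd C A (deg j)) ∧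
      ∀ (i : ℤ) (m : ℕ) (w : H.A (A.prod Z)),
        Pool.Agent.W484.CH.op (Pool.Agent.W484.CH.frob H (prodMap πA πZ))
          (((q ^ s : ℕ) : K) ^ i) m w = 0 →
          H.act (H.cl (Pool.Agent.W484.CH.proj Z D E)) w = w := by
  obtain ⟨n, b, α, hb, hα, hgood⟩ :=
    Pool.Agent.W484.CH.exists_good_basis g E hq r hr x hx hS hs hA
  have hQ1 : 1 < q ^ s := Nat.one_lt_pow hs.ne' hq
  have hX1 : (Polynomial.X - 1 : ℚ[X]) ≠ 0 := by
    have := Polynomial.X_sub_C_ne_zero (1 : ℚ)
    rwa [map_one] at this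
  have h1 : ∀ t (c : ℤ), α t = ((q ^ s : ℕ) : K) ^ c →
      ∃ l : ℕ, α t = ((q ^ s : ℕ) : K) ^ l ∧ b t ∈ Pool.Agent.W484.CH.NK H A l := by
    intro t c hc
    exact hgood _ hX1 (Pool.Agent.W484.CH.rank_one E r) 1
      (by rw [map_sub, aeval_X, map_one, sub_self]) t c (by rw [mul_one]; exact hc)
  obtain ⟨J, hJ, deg, D, E', hdual, hD, hN⟩ :=
    Pool.Agent.W484.CH.exists_dual hS hA.frobenius hQ1 b α hb h1 Z
  refine ⟨J, hJ, deg, D, E', hdual, hD, fun i m w hw => ?_⟩
  obtain ⟨χ, hχ, hχe, hrank⟩ := hZ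
  apply Pool.Agent.W484.CH.act_proj_mix hdual hN
  refine Pool.Agent.W484.CH.mem_mix (πZ := πZ) hS b α hb (Q := q ^ s) (by omega) i ?_ m _ hw
  intro t ρ v hv0 hv hc
  obtain ⟨l, -, hl⟩ := hgood χ hχ hrank ρ (hχe ρ v hv0 hv) t i hc
  exact ⟨l, hl⟩

end gen

theorem op_eq_iterate {K V : Type*} [Field K] [AddCommGroup V] [Module K V] (φ : Module.End K V)
    (μ : K) (m : ℕ) (w : V) :
    Pool.Agent.W484.CH.op φ μ m w = (fun z => φ z - μ • z)^[m] w := by
  rw [Pool.Agent.W484.CH.op, Module.End.pow_apply]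
  rfl

include hq hr hx

theorem tateForRankOver_of_good : TateForRankOver E q r (fun i => weil q (polys g x i)) := by
  intro k _ 𝒱 C _ K _ _ _ H _ s A Y πA πY hsit k' _ 𝒱' C' _ H' _ G ρ A' Z α β γ α' β' γ' hN' hS'
    hT' hρ hfib hres
  have hC1 : IsChowProj C := isChowProj_of hsit.normalized hsit.standard
  have hC2 : IsChowProj C' := isChowProj_of hN' hS'
  have hH2 : IsWeilProj H' := isWeilProj_of hS' hT'
  obtain ⟨J, hJ, deg, D, E', hdual, hD, hK⟩ := kunneth_gen g E hq r hr x
    hx (isStandard_bridge hsit.standard) hsit.pos (isAbelian_bridge hsit.abelian) (πZ := πY)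
    hsit.rank
  have hG : GenHom H' A' Z deg (fun j => α (D j)) (fun j => α (E' j)) := by
    refine ⟨fun j => hfib.left _ _ (hdual.left j), fun j => ?_, fun j => ?_, fun i j hij => ?_,
      fun i x hx => ?_⟩
    · rw [hfib.dim]
      exact hfib.left _ _ (hdual.right j)
    · change HasDegree C' (C'.mul (α (D j)) (α (E' j))) 1
      rw [← hfib.mul]
      exact hfib.degree _ _ (eq_of_dual hsit.standard hdual j)
    · change HasDegree C' (C'.mul (α (D i)) (α (E' j))) 0
      rw [← hfib.mul]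
      exact hfib.degree _ _ (ne_of_dual hsit.standard hdual i j hij)
    · obtain ⟨y, hy, rfl⟩ := hfib.surjective i x hx
      refine ⟨fun j => β (coef (E' j) y), fun j => hfib.right _ _ ?_, ?_⟩
      · exact coef_mem (hdual.right j) hy (by ring)
      · have h0 := pull_cl_frob (H := H) hsit.frobenius hy
        have h1 := hK i 1 (H.cl y) (by
          rw [op_eq_iterate, Function.iterate_one, sub_eq_zero]
          exact h0)
        have h2 := Pool.Agent.W484.CH.eq_sum_of_act h1
        have h3 : H.cl y = H.cl (∑ j, C.ext (D j) (coef (E' j) y)) := by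
          rw [h2, map_sum]
          refine Finset.sum_congr rfl fun j _ => ?_
          rw [← cl_act H, ← cl_act H, Pool.Agent.W484.CH.act_extBy,
            Pool.Agent.W484.CH.act_pairBy]
          rfl
        have hz : γ' (0 : H.A (A.prod Y)) = 0 := by
          have h4 := hres.add 0 0
          rw [add_zero] at h4
          exact left_eq_add.1 h4
        have h4 : H'.cl (γ (y - ∑ j, C.ext (D j) (coef (E' j) y))) = 0 := by
          have h5 := hres.cycles (y - ∑ j, C.ext (D j) (coef (E' j) y))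
          change γ' (H.cl _) = H'.cl _ at h5
          rw [← h5, map_sub, h3, sub_self, hz]
        have h5 : γ (y - ∑ j, C.ext (D j) (coef (E' j) y)) =
            γ y - ∑ j, γ (C.ext (D j) (coef (E' j) y)) := by
          have h6 := map_sub (AddMonoidHom.mk' γ hfib.add) y (∑ j, C.ext (D j) (coef (E' j) y))
          have h7 := map_sum (AddMonoidHom.mk' γ hfib.add)
            (fun j => C.ext (D j) (coef (E' j) y)) Finset.univ
          rw [h7] at h6
          exact h6
        rw [h5, map_sub, sub_eq_zero] at h4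
        rw [h4]
        congr 1
        exact Finset.sum_congr rfl fun j _ => hfib.times (D j) (coef (E' j) y)
  have hT : ∀ (i : ℤ) (w : H'.A (A'.prod Z)), IsTate ρ (A'.prod Z) i w → ∃ h : J → H'.A Z,
      w = ∑ j, H'.ext (H'.cl (α (D j))) (h j) := by
    intro i w hw
    obtain ⟨y, ⟨m, hy⟩, rfl⟩ := hres.invariant i w hw
    have h1 := hK i m y (by
      rw [op_eq_iterate]
      exact hy)
    have h2 := Pool.Agent.W484.CH.eq_sum_of_act h1
    refine ⟨fun j => β' (H.act (H.cl (Pool.Agent.W484.CH.pairBy C Y (E' j))) y), ?_⟩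
    have h3 : ∀ (j : J) (z : H.A Y), H.act (H.cl (Pool.Agent.W484.CH.extBy C Y (D j))) z =
        H.ext (H.cl (D j)) z := by
      intro j z
      have h4 : H.cl (Pool.Agent.W484.CH.extBy C Y (D j)) =
          Pool.Agent.W484.CH.extBy H.toTheoryData Y (H.cl (D j)) := by
        rw [Pool.Agent.W484.CH.extBy, Pool.Agent.W484.CH.extBy, H.cl_push, H.cl_pull]
      rw [h4, Pool.Agent.W484.CH.act_extBy]
    have h5 := map_sum (AddMonoidHom.mk' γ' hres.add)
      (fun j => H.act (H.cl (Pool.Agent.W484.CH.extBy C Y (D j)))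
        (H.act (H.cl (Pool.Agent.W484.CH.pairBy C Y (E' j))) y)) Finset.univ
    have h6 : γ' y = ∑ j, γ' (H.act (H.cl (Pool.Agent.W484.CH.extBy C Y (D j)))
        (H.act (H.cl (Pool.Agent.W484.CH.pairBy C Y (E' j))) y)) := (congrArg γ' h2).trans h5
    rw [h6]
    refine Finset.sum_congr rfl fun j _ => ?_
    rw [h3]
    have h7 := hres.times (cls H (D j)) (H.act (H.cl (Pool.Agent.W484.CH.pairBy C Y (E' j))) y)
    rw [hres.left] at h7
    exact h7
  refine ⟨⟨J, hJ, deg, fun j => α (D j), fun j => divisorProduct_fibre hfib (hD j),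
    fun i x hx => ?_, fun i w hw => ?_⟩, isSpanned_iff hρ hG hT, rankEquality_all_iff hρ hG hT⟩
  · refine ⟨fun j => coef (α (E' j)) x, ⟨fun j => coef_mem' H' hG hx j, expand H' hG hx⟩,
      fun z' hz' j => ?_⟩
    have h1 : H'.cl x = H'.cl (∑ j, C'.ext (α (D j)) (z' j)) := hz'
    change H'.cl (coef (α (E' j)) x) = H'.cl (z' j)
    rw [cl_coef', h1, ← cl_coef']
    exact congrArg H'.cl (DF.coef_gen H' hG z' j)
  · refine ⟨fun j => coefH H' (α (E' j)) w, ⟨fun j => isTate_coef hρ hG hw j,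
      expandT hρ hG hT hw⟩, fun h hh => ?_⟩
    funext j
    have h1 := coefH_gen hρ hG h j
    have h2 : w = ∑ j, H'.ext (H'.cl (α (D j))) (h j) := hh.2
    rw [← h2] at h1
    exact h1.symm

end

end Pool.Agent.N166.TT
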