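import Pool.Agent.N166.MU.Stm

/-!
# The Tate conjecture for products with constant abelian varieties: statements
-/

set_option autoImplicit false

open CategoryTheory AlgebraicGeometry Polynomial

universe u v w

namespace Pool.Agent.N166.TT

open Pool.Agent.H914 Pool.Agent.H914.VarClass Pool.Agent.H914.VarClass.Obj Pool.Agent.W492.BB
  Pool.Agent.W484.CK Pool.Agent.N166.MU

section

variable {k : Type u} [Field k] {𝒱 : VarClass k} {C : TheoryData.{u, v, 0} 𝒱 ℚ} {K : Type w}
  [Field K] (H : WeilTheoryData.{u, v, w} C K)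

/-- The class of the cycle `x`, as an element of `H.A X`. -/
def cls (H : WeilTheoryData.{u, v, w} C K) {X : 𝒱.Obj} (x : C.A X) : H.A X := H.cl x

/-- Operations of the elements of `G` (the Galois group or the fundamental group) on the cohomology
groups of all varieties, and a character `χ` of `G`. -/
structure Operations (G : Type) where
  /-- the character by which `G` operates on the classes of divisors -/
  χ : G → K
  /-- the operation -/
  op : ∀ X : 𝒱.Obj, G → H.A X → H.A X

variable {H} {G : Type} (ρ : Operations H G)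

/-- The operation is linear, compatible with products, pull-backs, push-forwards (up to the usual
twist) and degrees, and `G` operates through `χ ^ i` on the classes of cycles of
codimension `i`. -/
structure IsGaloisAction : Prop where
  ne : ∀ g, ρ.χ g ≠ 0
  add : ∀ X g a b, ρ.op X g (a + b) = ρ.op X g a + ρ.op X g b
  smul : ∀ X g (c : K) a, ρ.op X g (c • a) = c • ρ.op X g a
  mul : ∀ X g a b, ρ.op X g (H.mul a b) = H.mul (ρ.op X g a) (ρ.op X g b)
  pull : ∀ (X Y : 𝒱.Obj) (f : X ⟶ Y) g b, ρ.op X g (H.up f b) = H.up f (ρ.op Y g b)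
  push : ∀ (X Y : 𝒱.Obj) (f : X ⟶ Y) g a,
    ρ.op Y g (H.down f a) = ρ.χ g ^ ((Y.dim : ℤ) - X.dim) • H.down f (ρ.op X g a)
  cl : ∀ (X : 𝒱.Obj) g (i : ℤ) (x : C.A X), C.Deg i x → ρ.op X g (cls H x) = ρ.χ g ^ i • cls H x

/-- The Tate classes in `H^(2 i)(X)`: the classes on which `G` operates through `χ ^ i`, that is, the
invariants in `H^(2 i)(X)(i)`. -/
def IsTate (X : 𝒱.Obj) (i : ℤ) (w : H.A X) : Prop :=
  H.Deg (2 * i) w ∧ ∀ g, ρ.op X g w = ρ.χ g ^ i • w

/-- Every Tate class in `H^(2 i)(X)` is a linear combination of classes of cycles. -/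
def IsSpanned (X : 𝒱.Obj) (i : ℕ) : Prop :=
  ∀ w, IsTate ρ X i w → InSpan H (fun c => ∃ x, C.Deg i x ∧ c = cls H x) w

/-- The rational space `A^i(X)` of cycles of codimension `i` modulo homological equivalence has
dimension `n`: it has a basis with `n` elements. -/
def RankCycles (H : WeilTheoryData.{u, v, w} C K) (X : 𝒱.Obj) (i n : ℕ) : Prop :=
  ∃ x : Fin n → C.A X, (∀ j, C.Deg i (x j)) ∧ ∀ y, C.Deg i y → ∃! c : Fin n → ℚ,
    cls H y = cls H (∑ j, c j • x j)

/-- The space of Tate classes in `H^(2 i)(X)` has dimension `n`: it has a basis with `n` elements. -/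
def RankTate (X : 𝒱.Obj) (i n : ℕ) : Prop :=
  ∃ w : Fin n → H.A X, (∀ j, IsTate ρ X i (w j)) ∧ ∀ y, IsTate ρ X i y → ∃! c : Fin n → K,
    y = ∑ j, c j • w j

/-- The first statement of the question: the rank of the space of cycles of codimension `i` on `X`
modulo homological equivalence is equal to the dimension of the space of the invariants in
`H^(2 i)(X)(i)`. -/
def RankEquality (X : 𝒱.Obj) (i : ℕ) : Prop := ∃ n, RankCycles H X i n ∧ RankTate ρ X i n

/-- The external product of cohomology classes. -/
noncomputable def cross (H : WeilTheoryData.{u, v, w} C K) {X Y : 𝒱.Obj} (a : H.A X) (b : H.A Y) :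
    H.A (X.prod Y) := H.mul (H.up (fst X Y) a) (H.up (snd X Y) b)

/-- The class `y` is killed by a power of `F - c`. -/
def Killed (H : WeilTheoryData.{u, v, w} C K) {X : 𝒱.Obj} (F : X ⟶ X) (c : K) (y : H.A X) : Prop :=
  ∃ m : ℕ, (fun z => H.up F z - c • z)^[m] y = 0

/-- Modulo homological equivalence, every class in `CH^i(A × Z)` can be written in a unique way as
`∑ D a × z a` with `z a` in `CH^(i - deg a)(Z)`. -/
def CyclesExpand (H : WeilTheoryData.{u, v, w} C K) {A : 𝒱.Obj} (Z : 𝒱.Obj) {J : Type} [Fintype J]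
    (deg : J → ℕ) (D : J → C.A A) : Prop :=
  ∀ (i : ℤ) (x : C.A (A.prod Z)), C.Deg i x → ∃ z : J → C.A Z,
    ((∀ j, C.Deg (i - deg j) (z j)) ∧ cls H x = cls H (∑ j, times C (D j) (z j))) ∧
    ∀ z' : J → C.A Z, cls H x = cls H (∑ j, times C (D j) (z' j)) →
      ∀ j, cls H (z j) = cls H (z' j)

/-- Every Tate class in `H^(2 i)(A × Z)` can be written in a unique way as `∑ cl (D a) × h a` with Tate
classes `h a` in `H^(2 (i - deg a))(Z)`. -/
def TateExpand {A : 𝒱.Obj} (Z : 𝒱.Obj) {J : Type} [Fintype J] (deg : J → ℕ) (D : J → C.A A) : Prop :=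
  ∀ (i : ℤ) (w : H.A (A.prod Z)), IsTate ρ (A.prod Z) i w → ∃! h : J → H.A Z,
    (∀ j, IsTate ρ Z (i - deg j) (h j)) ∧ w = ∑ j, cross H (cls H (D j)) (h j)

/-- The Tate conjecture for `A × Z` is equivalent to the one for `Z`: there are finitely many
products `D a` of `deg a` divisor classes on `A` for which `CyclesExpand` and `TateExpand` hold; the
Tate classes in `H^(2 i)(A × Z)` are linear combinations of classes of cycles if and only if the
same holds for `H^(2 m)(Z)`, for all `m` with `i - dim A ≤ m ≤ i`; and the rank equality holds for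
`A × Z` (in all codimensions) if and only if it holds for `Z` (in all codimensions). -/
def TateForProduct (A Z : 𝒱.Obj) : Prop :=
  (∃ (J : Type) (_ : Fintype J) (deg : J → ℕ) (D : J → C.A A),
    (∀ j, DivisorProduct C (deg j) (D j)) ∧ CyclesExpand H Z deg D ∧ TateExpand ρ Z deg D) ∧
  (∀ i : ℕ, IsSpanned ρ (A.prod Z) i ↔ ∀ m : ℕ, m ≤ i → i ≤ m + A.dim → IsSpanned ρ Z m) ∧
  ((∀ i, RankEquality ρ (A.prod Z) i) ↔ ∀ i, RankEquality ρ Z i)

/-- The situation over the finite field: `πA` is the Frobenius endomorphism of an abelian variety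
`A` over the field with `q ^ s` elements, isogenous to a product of powers of abelian varieties
coming from the field with `q` elements with characteristic polynomials of Frobenius `f i`; `Y` is
any variety over the field with `q ^ s` elements, such that the eigenvalues of its Frobenius
endomorphism `πY` on the cohomology lie up to powers in a group generated by the elements of the
number field `E` and `r` numbers; and `πA × πY` acts on the Chow groups of `A × Y` in the usual
way. -/
structure IsBase (H : WeilTheoryData.{u, v, w} C K) [CharZero K] (E : IntermediateField ℚ ℂ)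
    (q r s : ℕ) {I : Type} (f : I → ℤ[X]) {A Y : 𝒱.Obj} (πA : A ⟶ A) (πY : Y ⟶ Y) : Prop where
  standard : IsStandard H
  normalized : IsNormalized C
  pos : 0 < s
  abelian : IsAbelian H πA q s f
  rank : EigenvaluesOfRank H E r πY
  frobenius : IsFrobenius C (prodMap πA πY) (q ^ s)

end

/-- The maps `α'`, `β'` and `γ'` are the restrictions of cohomology classes on `A`, `Y` and `A × Y` to
the generic fibres `A'`, `Z` and `A' × Z`, compatible with the restrictions `α` and `γ` of cycles,
such that every Tate class on `A' × Z` is the restriction of a cohomology class on `A × Y` which is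
killed by a power of `F - Q ^ i`, `F` the Frobenius (Deligne's theorem on invariant cycles). -/
structure IsRestriction {k : Type u} [Field k] {𝒱 : VarClass k} {C : TheoryData.{u, v, 0} 𝒱 ℚ}
    {k' : Type u} [Field k'] {𝒱' : VarClass k'} {C' : TheoryData.{u, v, 0} 𝒱' ℚ} {K : Type w}
    [Field K] (H : WeilTheoryData.{u, v, w} C K) {H' : WeilTheoryData.{u, v, w} C' K} {G : Type}
    (ρ : Operations H' G) (Q : ℕ) {A Y : 𝒱.Obj} {A' Z : 𝒱'.Obj} (F : A.prod Y ⟶ A.prod Y)
    (α : C.A A → C'.A A') (γ : C.A (A.prod Y) → C'.A (A'.prod Z)) (α' : H.A A → H'.A A')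
    (β' : H.A Y → H'.A Z) (γ' : H.A (A.prod Y) → H'.A (A'.prod Z)) : Prop where
  add : ∀ x y, γ' (x + y) = γ' x + γ' y
  times : ∀ a y, γ' (cross H a y) = cross H' (α' a) (β' y)
  left : ∀ a, α' (cls H a) = cls H' (α a)
  cycles : ∀ x, γ' (cls H x) = cls H' (γ x)
  invariant : ∀ (i : ℤ) w, IsTate ρ (A'.prod Z) i w → ∃ y, Killed H F ((Q : K) ^ i) y ∧ γ' y = w

/-- `TateForRankOver E q r f`: the following holds for the Chow groups `C` with rational
coefficients of all classes `𝒱` of varieties over fields `k` (finite, in the intended use), every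
Weil cohomology theory `H` with coefficients in an algebraically closed field `K` of characteristic
zero, every `s` and all varieties `A` and `Y` as in `IsBase`.

Let `k'` be a field (in the intended use the function field of a variety `S` over `k`), `C'` the
Chow groups with rational coefficients of a class of varieties over `k'`, `H'` a Weil cohomology
theory with an action of a group `G`, and let `A'` and `Z` be varieties over `k'`, the generic fibres
of `A × S` and of a morphism from `Y` to `S`. Then `TateForProduct` holds for `A'` and `Z`. -/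
def TateForRankOver (E : IntermediateField ℚ ℂ) (q r : ℕ) {I : Type} (f : I → ℤ[X]) : Prop :=
  ∀ (k : Type) [Field k] (𝒱 : VarClass k) (C : TheoryData.{0, 0, 0} 𝒱 ℚ) [IsChow C]
    (K : Type) [Field K] [IsAlgClosed K] [CharZero K] (H : WeilTheoryData.{0, 0, 0} C K) [IsWeil H]
    (s : ℕ) (A Y : 𝒱.Obj) (πA : A ⟶ A) (πY : Y ⟶ Y), IsBase H E q r s f πA πY →
  ∀ (k' : Type) [Field k'] (𝒱' : VarClass k') (C' : TheoryData.{0, 0, 0} 𝒱' ℚ) [IsChow C']
    (H' : WeilTheoryData.{0, 0, 0} C' K) [IsWeil H'] (G : Type) (ρ : Operations H' G)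
    (A' Z : 𝒱'.Obj) (α : C.A A → C'.A A') (β : C.A Y → C'.A Z)
    (γ : C.A (A.prod Y) → C'.A (A'.prod Z)) (α' : H.A A → H'.A A') (β' : H.A Y → H'.A Z)
    (γ' : H.A (A.prod Y) → H'.A (A'.prod Z)),
    IsNormalized C' → IsStandard H' → IsTopOriented H' → IsGaloisAction ρ →
    IsGenericFibre C C' α β γ → IsRestriction H ρ (q ^ s) (prodMap πA πY) α γ α' β' γ' →
    TateForProduct ρ A' Z

end Pool.Agent.N166.TT
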