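import Pool.Agent.N166.DF.Core
import Pool.Agent.N166.TT.Stm
import Pool.Agent.W484.CH.NK

/-!
# The Tate conjecture for products: the classes
-/

set_option autoImplicit false
set_option linter.unusedSectionVars false

open CategoryTheory AlgebraicGeometry Polynomial

universe u v w

namespace Pool.Agent.N166.TT

open Pool.Agent.H914 Pool.Agent.H914.VarClass Pool.Agent.H914.VarClass.Obj Pool.Agent.W492.BB
  Pool.Agent.W550.Corr Pool.Agent.TH133 Pool.Agent.N166.MU Pool.Agent.N166.DF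

variable {k : Type u} [Field k] {𝒱 : VarClass k} {C : TheoryData.{u, v, 0} 𝒱 ℚ}
  [hC : IsChowProj C] {K : Type w} [Field K] [CharZero K] {H : WeilTheoryData.{u, v, w} C K}
  [hH : IsWeilProj H] {G : Type} {ρ : Operations H G} {A Z : 𝒱.Obj} {J : Type} [Fintype J]
  {deg : J → ℕ} {D E : J → C.A A}

/-- The coefficient of a cohomology class. -/
noncomputable def coefH (H : WeilTheoryData.{u, v, w} C K) (a : C.A A) (w : H.A (A.prod Z)) :
    H.A Z := H.push (snd A Z) (H.pull (fst A Z) (H.cl a) * w)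

lemma cl_coef' (a : C.A A) (x : C.A (A.prod Z)) : H.cl (coef a x) = coefH H a (H.cl x) :=
  cl_coef H a x

lemma cl_ext (a : C.A A) (z : C.A Z) : H.cl (C.ext a z) = H.ext (H.cl a) (H.cl z) := by
  rw [TheoryData.ext, TheoryData.ext, map_mul, H.cl_pull, H.cl_pull]

lemma coefH_ext {a b : C.A A} {q : ℚ} (h : HasDegree C (b * a) q) (y : H.A Z) :
    coefH H a (H.ext (H.cl b) y) = (q : K) • y := by
  rw [coefH, TheoryData.ext, ← mul_assoc, ← map_mul, ← map_mul, ch_comm C a b, H.proj_right,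
    ← H.cl_pull, ← H.cl_push, (h Z).1, Pool.Agent.W484.CH.cl_smul, map_one, smul_mul_assoc,
    one_mul]

lemma coefH_add (a : C.A A) (x y : H.A (A.prod Z)) :
    coefH H a (x + y) = coefH H a x + coefH H a y := by
  rw [coefH, mul_add, map_add]
  rfl

lemma coefH_zero (a : C.A A) : coefH H a (0 : H.A (A.prod Z)) = 0 := by
  rw [coefH, mul_zero, map_zero]

lemma coefH_smul (a : C.A A) (c : K) (x : H.A (A.prod Z)) :
    coefH H a (c • x) = c • coefH H a x := by
  rw [coefH, mul_smul_comm, map_smul]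
  rfl

lemma coefH_sum {ι : Type} (s : Finset ι) (a : C.A A) (x : ι → H.A (A.prod Z)) :
    coefH H a (∑ j ∈ s, x j) = ∑ j ∈ s, coefH H a (x j) := by
  rw [coefH, Finset.mul_sum, map_sum]
  rfl

lemma coefH_mem {i j l : ℤ} {a : C.A A} (ha : C.Deg i a) {x : H.A (A.prod Z)} (hx : H.Deg j x)
    (h : 2 * i + j - 2 * A.dim = l) : H.Deg l (coefH H a x) := by
  have h1 := H.push_mem (snd A Z) (H.mul_mem (H.pull_mem (fst A Z) (H.cl_mem ha)) hx)
  have h2 : 2 * i + j + 2 * ((Z.dim : ℤ) - (A.prod Z).dim) = l := by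
    rw [Obj.dim_prod]
    push_cast
    omega
  rw [h2] at h1
  exact h1

/-- Coefficients of Tate classes are Tate classes. -/
lemma isTate_coefH (hρ : IsGaloisAction ρ) {c i : ℤ} {a : C.A A} (ha : C.Deg (A.dim - c) a)
    {w : H.A (A.prod Z)} (hw : IsTate ρ (A.prod Z) i w) : IsTate ρ Z (i - c) (coefH H a w) := by
  refine ⟨coefH_mem ha hw.1 (by ring), fun g => ?_⟩
  have h1 := hρ.push _ _ (snd A Z) g (H.pull (fst A Z) (H.cl a) * w)
  have h2 := hρ.mul _ g (H.pull (fst A Z) (H.cl a)) w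
  have h3 := hρ.pull _ _ (fst A Z) g (H.cl a)
  have h4 : ρ.op A g (H.cl a) = ρ.χ g ^ ((A.dim : ℤ) - c) • H.cl a := hρ.cl _ g _ _ ha
  change ρ.op Z g (coefH H a w) = _ at h1
  change ρ.op _ g (H.pull (fst A Z) (H.cl a) * w) = _ * _ at h2
  change ρ.op _ g (H.pull (fst A Z) (H.cl a)) = H.pull (fst A Z) _ at h3
  rw [h1]
  change _ • H.push (snd A Z) _ = _
  rw [h2, h3, h4, hw.2 g, map_smul, smul_mul_smul_comm, map_smul, smul_smul]
  change _ • coefH H a w = _
  congr 1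
  rw [← zpow_add₀ (hρ.ne g), ← zpow_add₀ (hρ.ne g), Obj.dim_prod]
  congr 1
  push_cast
  ring

/-- Products of classes of cycles and Tate classes. -/
lemma isTate_ext (hρ : IsGaloisAction ρ) {c i : ℤ} {a : C.A A} (ha : C.Deg c a) {y : H.A Z}
    (hy : IsTate ρ Z i y) : IsTate ρ (A.prod Z) (c + i) (H.ext (H.cl a) y) := by
  refine ⟨?_, fun g => ?_⟩
  · have h1 := H.mul_mem (H.pull_mem (fst A Z) (H.cl_mem ha)) (H.pull_mem (snd A Z) hy.1)
    have h2 : 2 * c + 2 * i = 2 * (c + i) := by ring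
    rw [h2] at h1
    exact h1
  · have h2 := hρ.mul _ g (H.pull (fst A Z) (H.cl a)) (H.pull (snd A Z) y)
    have h3 := hρ.pull _ _ (fst A Z) g (H.cl a)
    have h3' := hρ.pull _ _ (snd A Z) g y
    have h4 : ρ.op A g (H.cl a) = ρ.χ g ^ c • H.cl a := hρ.cl _ g _ _ ha
    change ρ.op _ g (H.ext (H.cl a) y) = _ * _ at h2
    change ρ.op _ g (H.pull (fst A Z) (H.cl a)) = H.pull (fst A Z) _ at h3
    change ρ.op _ g (H.pull (snd A Z) y) = H.pull (snd A Z) _ at h3'
    rw [h2, h3, h3', h4, hy.2 g, map_smul, map_smul, smul_mul_smul_comm, zpow_add₀ (hρ.ne g)]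
    rfl

lemma isTate_add (hρ : IsGaloisAction ρ) {X : 𝒱.Obj} {i : ℤ} {x y : H.A X}
    (hx : IsTate ρ X i x) (hy : IsTate ρ X i y) : IsTate ρ X i (x + y) :=
  ⟨Submodule.add_mem _ hx.1 hy.1, fun g => by rw [hρ.add, hx.2, hy.2, smul_add]⟩

lemma isTate_smul (hρ : IsGaloisAction ρ) {X : 𝒱.Obj} {i : ℤ} (c : K) {x : H.A X}
    (hx : IsTate ρ X i x) : IsTate ρ X i (c • x) :=
  ⟨Submodule.smul_mem _ _ hx.1, fun g => by rw [hρ.smul, hx.2, smul_comm]⟩

lemma isTate_zero (hρ : IsGaloisAction ρ) (X : 𝒱.Obj) (i : ℤ) : IsTate ρ X i (0 : H.A X) :=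
  ⟨Submodule.zero_mem _, fun g => by
    have h1 := hρ.smul X g 0 0
    rw [zero_smul, zero_smul] at h1
    rw [h1, smul_zero]⟩

/-- The space of Tate classes. -/
def tate (hρ : IsGaloisAction ρ) (X : 𝒱.Obj) (i : ℤ) : Submodule K (H.A X) where
  carrier := {w | IsTate ρ X i w}
  zero_mem' := isTate_zero hρ X i
  add_mem' := isTate_add hρ
  smul_mem' c _ hx := isTate_smul hρ c hx

end Pool.Agent.N166.TT
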